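import Pool.Agent.helper77.SK.Spec

/-!
# sk: AR2 (arithmetic)
-/

set_option autoImplicit false

namespace Pool.Agent.SK

theorem AR2_g {K : Type} [CommRing K] (x y : K) (h : 2 * y * x = -1) :
    (2 * x) ^ 5 * TT y x = -6 * x ^ 2 * (16 * x ^ 8 - 100 * x ^ 7 + 134 * x ^ 6 + 240 * x ^ 5
      - 578 * x ^ 4 + 95 * x ^ 3 + 191 * x ^ 2 + 80 * x + 12) := by
  obtain ⟨s, hs⟩ : ∃ s : K, s = 2 * y * x := ⟨_, rfl⟩
  have e : (2 * x) ^ 5 * TT y x =
      s ^ 5 * (18 * x ^ 6 + 30 * x ^ 5 + 12 * x ^ 4)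
      + s ^ 4 * (2 * x) * (42 * x ^ 6 - 25 * x ^ 5 - 188 * x ^ 4 - 161 * x ^ 3 - 64 * x ^ 2
        - 12 * x)
      + s ^ 3 * (2 * x) ^ 2 * (35 * x ^ 6 - 111 * x ^ 5 - 210 * x ^ 4 + 83 * x ^ 3
        + 139 * x ^ 2 + 64 * x + 12)
      + s ^ 2 * (2 * x) ^ 3 * (13 * x ^ 6 - 83 * x ^ 5 - 44 * x ^ 4 + 193 * x ^ 3
        + 13 * x ^ 2 - 32 * x - 12)
      + s * (2 * x) ^ 4 * (2 * x ^ 6 - 23 * x ^ 5 + 12 * x ^ 4 + 69 * x ^ 3 - 56 * x ^ 2
        - 4 * x)
      + (2 * x) ^ 5 * (-2 * x ^ 5 + 4 * x ^ 4 + 6 * x ^ 3 - 16 * x ^ 2 + 8 * x) := by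
    rw [hs]
    unfold TT
    ring
  rw [e, hs, h]
  ring

theorem AR2_h {K : Type} [CommRing K] (x y : K) (h : 2 * y * x = -1) :
    (2 * x) ^ 6 * TT x y = 3 * x * (384 * x ^ 8 - 1280 * x ^ 7 + 1528 * x ^ 6 - 380 * x ^ 5
      - 1156 * x ^ 4 - 240 * x ^ 3 + 67 * x ^ 2 + 25 * x + 2) := by
  obtain ⟨s, hs⟩ : ∃ s : K, s = 2 * y * x := ⟨_, rfl⟩
  have e : (2 * x) ^ 6 * TT x y =
      s ^ 6 * (18 * x ^ 5 + 42 * x ^ 4 + 35 * x ^ 3 + 13 * x ^ 2 + 2 * x)
      + s ^ 5 * (2 * x) * (30 * x ^ 5 - 25 * x ^ 4 - 111 * x ^ 3 - 83 * x ^ 2 - 23 * x - 2)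
      + s ^ 4 * (2 * x) ^ 2 * (12 * x ^ 5 - 188 * x ^ 4 - 210 * x ^ 3 - 44 * x ^ 2 + 12 * x + 4)
      + s ^ 3 * (2 * x) ^ 3 * (-161 * x ^ 4 + 83 * x ^ 3 + 193 * x ^ 2 + 69 * x + 6)
      + s ^ 2 * (2 * x) ^ 4 * (-64 * x ^ 4 + 139 * x ^ 3 + 13 * x ^ 2 - 56 * x - 16)
      + s * (2 * x) ^ 5 * (-12 * x ^ 4 + 64 * x ^ 3 - 32 * x ^ 2 - 4 * x + 8)
      + (2 * x) ^ 6 * (12 * x ^ 3 - 12 * x ^ 2) := by
    rw [hs]
    unfold TT
    ring
  rw [e, hs, h]
  ring

theorem AR2_L1 {K : Type} [CommRing K] (x y : K) (h : 2 * y * x = -1) :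
    4 * L1 y x = -3 * ((x - 1) * (4 * x + 3) * (x - 2)) := by
  obtain ⟨s, hs⟩ : ∃ s : K, s = 2 * y * x := ⟨_, rfl⟩
  have e : 4 * L1 y x = s ^ 2 * (3 * x ^ 2 - x - 2) + s * (4 * x ^ 3 - 12 * x ^ 2 + 8)
      - 8 * x ^ 3 + 12 * x ^ 2 + 4 * x - 8 := by
    rw [hs]
    unfold L1
    ring
  rw [e, hs, h]
  ring

theorem AR2_L2 {K : Type} [CommRing K] (x y : K) (h : 2 * y * x = -1) :
    4 * x ^ 2 * L2 y x = (x - 2) * (4 * x - 1) * (3 * x + 1) := by
  obtain ⟨s, hs⟩ : ∃ s : K, s = 2 * y * x := ⟨_, rfl⟩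
  have e : 4 * x ^ 2 * L2 y x = s ^ 2 * (-3 * x ^ 2 + x + 2) + s * (-4 * x ^ 3 + 12 * x ^ 2
      + 4 * x) + 8 * x ^ 3 - 8 * x ^ 2 := by
    rw [hs]
    unfold L2
    ring
  rw [e, hs, h]
  ring

theorem AR2_uv {K : Type} [CommRing K] (x : K) :
    (-127862304 * x ^ 5 + 443793320 * x ^ 4 - 683347348 * x ^ 3 + 394336040 * x ^ 2
      + 148620452 * x - 97306625) * (16 * x ^ 8 - 100 * x ^ 7 + 134 * x ^ 6 + 240 * x ^ 5
      - 578 * x ^ 4 + 95 * x ^ 3 + 191 * x ^ 2 + 80 * x + 12)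
    + (5327596 * x ^ 5 - 34030210 * x ^ 4 + 54029174 * x ^ 3 + 51444080 * x ^ 2
      - 196019587 * x + 128124750) * (384 * x ^ 8 - 1280 * x ^ 7 + 1528 * x ^ 6 - 380 * x ^ 5
      - 1156 * x ^ 4 - 240 * x ^ 3 + 67 * x ^ 2 + 25 * x + 2)
    = 455715000 * ((x - 2) * (4 * x + 1)) := by
  ring

theorem AR2_small {p : ℕ} [hp : Fact p.Prime] (n : ℕ) (h0 : 0 < n) (hn : n < p) :
    (n : ZMod p) ≠ 0 := by
  rw [Ne, ZMod.natCast_eq_zero_iff]
  intro h
  have := Nat.le_of_dvd h0 h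
  omega

/-- the case of two linear conditions -/
theorem AR2_L {p : ℕ} [hp : Fact p.Prime] (h19 : 19 ≤ p) (x y : ZMod p) (hxy : 2 * y * x = -1)
    (h1 : L1 y x = 0) (h2 : L2 y x = 0) : x = 2 := by
  have n2 : (2 : ZMod p) ≠ 0 := by exact_mod_cast AR2_small (p := p) 2 (by norm_num) (by omega)
  have n3 : (3 : ZMod p) ≠ 0 := by exact_mod_cast AR2_small (p := p) 3 (by norm_num) (by omega)
  have n4 : (4 : ZMod p) ≠ 0 := by exact_mod_cast AR2_small (p := p) 4 (by norm_num) (by omega)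
  have n5 : (5 : ZMod p) ≠ 0 := by exact_mod_cast AR2_small (p := p) 5 (by norm_num) (by omega)
  by_contra hx
  have hx2 : x - 2 ≠ 0 := sub_ne_zero.2 hx
  have e1 := AR2_L1 x y hxy
  have e2 := AR2_L2 x y hxy
  rw [h1, mul_zero] at e1
  rw [h2, mul_zero] at e2
  have f1 : (x - 1) * (4 * x + 3) = 0 := by
    have : 3 * ((x - 1) * (4 * x + 3) * (x - 2)) = 0 := by linear_combination e1
    rcases mul_eq_zero.1 this with h | h
    · exact absurd h n3
    · exact (mul_eq_zero.1 h).resolve_right hx2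
  have f2 : (4 * x - 1) * (3 * x + 1) = 0 := by
    have : (x - 2) * ((4 * x - 1) * (3 * x + 1)) = 0 := by linear_combination -e2
    exact (mul_eq_zero.1 this).resolve_left hx2
  rcases mul_eq_zero.1 f1 with h | h
  · have hx1 : x = 1 := by linear_combination h
    rw [hx1] at f2
    have : (3 : ZMod p) * 4 = 0 := by linear_combination f2
    exact mul_ne_zero n3 n4 this
  · rcases mul_eq_zero.1 f2 with h' | h'
    · exact n4 (by linear_combination h - h')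
    · exact n5 (by linear_combination 3 * h - 4 * h')

theorem AR2 : AR2_stmt := by
  intro p hp N M hN hM hNM hc1 hc2
  have hp' : p.Prime := hp.out
  have h9 : 3 * 3 ≤ N * M := Nat.mul_le_mul hN hM
  have h19 : 19 ≤ p := by omega
  have hNM3 : 3 * N ≤ N * M := by
    rw [mul_comm N M]
    exact Nat.mul_le_mul_right N hM
  have hNM3' : 3 * M ≤ N * M := Nat.mul_le_mul_right M hN
  have hMp : M < p := by omega
  have hNp : N < p := by omega
  have n2 : (2 : ZMod p) ≠ 0 := by exact_mod_cast AR2_small (p := p) 2 (by norm_num) (by omega)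
  have n3 : (3 : ZMod p) ≠ 0 := by exact_mod_cast AR2_small (p := p) 3 (by norm_num) (by omega)
  have hx0 : (M : ZMod p) ≠ 0 := AR2_small M (by omega) hMp
  have hy0 : (N : ZMod p) ≠ 0 := AR2_small N (by omega) hNp
  have hne2 : ∀ n : ℕ, 3 ≤ n → n < p → (n : ZMod p) ≠ 2 := by
    intro n h3 hn h
    have e : ((n - 2 : ℕ) : ZMod p) = 0 := by
      rw [Nat.cast_sub (by omega), h]
      push_cast
      ring
    exact AR2_small (p := p) (n - 2) (by omega) (by omega) e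
  have hx2 := hne2 M hM hMp
  have hy2 := hne2 N hN hNp
  have hxy : 2 * (N : ZMod p) * M = -1 := by
    have e : ((2 * (N * M) + 1 : ℕ) : ZMod p) = 0 := by
      rw [hNM]
      exact ZMod.natCast_self p
    push_cast at e
    linear_combination e
  have hyx : 2 * (M : ZMod p) * N = -1 := by linear_combination hxy
  have t1 : TT (N : ZMod p) M = 0 := by
    rcases hc1 with h | ⟨h1, h2⟩
    · exact h
    · exact absurd (AR2_L h19 (M : ZMod p) N hxy h1 h2) hx2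
  have t2 : TT (M : ZMod p) N = 0 := by
    rcases hc2 with h | ⟨h1, h2⟩
    · exact h
    · exact absurd (AR2_L h19 (N : ZMod p) M hyx h1 h2) hy2
  have e1 := AR2_g (M : ZMod p) N hxy
  have e2 := AR2_h (M : ZMod p) N hxy
  rw [t1, mul_zero] at e1
  rw [t2, mul_zero] at e2
  have hg := (mul_eq_zero.1 e1.symm).resolve_left (by
    have : (-6 : ZMod p) * (M : ZMod p) ^ 2 = -(2 * 3 * (M : ZMod p) ^ 2) := by ring
    rw [this]
    exact neg_ne_zero.2 (mul_ne_zero (mul_ne_zero n2 n3) (pow_ne_zero 2 hx0)))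
  have hh := (mul_eq_zero.1 e2.symm).resolve_left (mul_ne_zero n3 hx0)
  have huv := AR2_uv (M : ZMod p)
  rw [hg, hh, mul_zero, mul_zero, add_zero] at huv
  have h4x : 4 * (M : ZMod p) + 1 ≠ 0 := by
    intro h
    apply hy2
    linear_combination (N : ZMod p) * h - 2 * hxy
  have hnum : ((455715000 : ℕ) : ZMod p) = 0 := by
    have := (mul_eq_zero.1 huv.symm).resolve_right (mul_ne_zero (sub_ne_zero.2 hx2) h4x)
    exact_mod_cast this
  rw [ZMod.natCast_eq_zero_iff] at hnum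
  have hfac : (455715000 : ℕ) = 2 ^ 3 * 3 ^ 2 * 5 ^ 4 * 13 * 19 * 41 := by norm_num
  rw [hfac] at hnum
  have hp41 : p = 19 ∨ p = 41 := by
    rcases (hp'.dvd_mul).1 hnum with h | h
    · rcases (hp'.dvd_mul).1 h with h | h
      · exfalso
        rcases (hp'.dvd_mul).1 h with h | h
        · rcases (hp'.dvd_mul).1 h with h | h
          · rcases (hp'.dvd_mul).1 h with h | h
            · have := Nat.le_of_dvd (by norm_num) (hp'.dvd_of_dvd_pow h)
              omega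
            · have := Nat.le_of_dvd (by norm_num) (hp'.dvd_of_dvd_pow h)
              omega
          · have := Nat.le_of_dvd (by norm_num) (hp'.dvd_of_dvd_pow h)
            omega
        · have := Nat.le_of_dvd (by norm_num) h
          omega
      · exact Or.inl ((Nat.prime_dvd_prime_iff_eq hp' (by norm_num)).1 h)
    · exact Or.inr ((Nat.prime_dvd_prime_iff_eq hp' (by norm_num)).1 h)
  rcases hp41 with h | h
  · refine ⟨h, ?_, ?_⟩ <;> omega
  · exfalso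
    subst h
    have hN6 : N ≤ 6 := by omega
    have hM6 : M ≤ 6 := by omega
    have h45 : TT (4 : ZMod 41) 5 ≠ 0 := by
      have e : TT (4 : ZMod 41) 5 = ((508272096 : ℕ) : ZMod 41) := by
        unfold TT
        push_cast
        ring
      rw [e, Ne, ZMod.natCast_eq_zero_iff]
      norm_num
    interval_cases N <;> interval_cases M <;> first | omega | exact h45 (by exact_mod_cast t1) |
      exact h45 (by exact_mod_cast t2)

end Pool.Agent.SK
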